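import Mathlib
import Pool.Agent.HuaDom91.Key

/-!
Perfect pairs: the parallelogram defect at one point, over an arbitrary field of scalars.
-/

set_option autoImplicit false
set_option maxHeartbeats 1000000

namespace Pool.Agent.HuaPP39

open Pool.Agent.HuaTop84 Pool.Agent.HuaVal Pool.Agent.HuaOne84 Pool.Agent.HuaDom91

variable {A : Type} [AddCommGroup A] {K : Type} [Field K] [Module K A] {H : HS A}

/-- The unit and `x` lie in a field. -/
def InField (K : Type) [Field K] {A : Type} [AddCommGroup A] [Module K A] (H : HS A) (x : A) :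
    Prop :=
  ∃ (L : Type) (_ : Field L) (_ : Algebra K L) (φ : L →ₗ[K] A),
    Function.Injective φ ∧ φ 1 = H.one ∧ (∃ u, φ u = x) ∧
    (∀ u, H.inv (φ u) = φ u⁻¹) ∧ (∀ u v, H.U (φ u) (φ v) = φ (u * u * v))

/-- The parallelogram defect lies in `P`, for the unit. -/
theorem key_unit (S : H.Scal K) (h2K : (2 : K) ≠ 0) {P R : Submodule K A}
    (h : Perf H P R) {θ u : A} (hF : InField K H u) (hu : u ∉ P) (hui : H.inv u ∈ P)
    (q0 : H.U u θ ∉ P) (q0' : θ ∉ P → H.U (H.inv θ) (H.U u θ) ∉ R)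
    (g0 : ∀ x, H.U u (H.U u x) ∈ P → H.U u (H.U θ x) ∈ P) :
    H.U (u + H.one) θ + H.U (u - H.one) θ - (2 : K) • H.U u θ - (2 : K) • θ ∈ P := by
  have hθ0 : θ ≠ 0 := fun h0 => q0 (by rw [h0, map_zero]; exact P.zero_mem)
  obtain ⟨L, _, _, φ, hinj, hone, ⟨d, hd⟩, hi, hU⟩ := hF
  have hu0 : u ≠ 0 := fun h0 => hu (h0 ▸ P.zero_mem)
  have huR : u ∉ R := by
    have h3 := h.inv_notMem hui (H.inv_ne u hu0)
    rwa [H.inv_inv] at h3
  have hus : ∀ s : K, u - s • H.one ≠ 0 := by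
    intro s h0
    have h3 := sub_eq_zero.mp h0
    by_cases hs : s = 0
    · rw [hs, zero_smul] at h3
      exact hu0 h3
    rw [h3, P.smul_mem_iff hs] at hu
    rw [h3, S.inv_smul s _ hs, H.inv_one, P.smul_mem_iff (inv_ne_zero hs)] at hui
    exact hu hui
  have hds : ∀ s : K, d - algebraMap K L s ≠ 0 := by
    intro s h0
    apply hus s
    have h3 : d = s • (1 : L) := by rw [Algebra.smul_def, mul_one]; exact sub_eq_zero.mp h0
    rw [← hd, h3, map_smul, hone, sub_self]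
  have hd0 : d ≠ 0 := by simpa using hds 0
  have hd1 : d - 1 ≠ 0 := by simpa using hds 1
  have hd2 : d + 1 ≠ 0 := by
    have h3 := hds (-1)
    rwa [map_neg, map_one, sub_neg_eq_add] at h3
  have hd1' : 1 - d ≠ 0 := fun h0 => hd1 (by rw [← neg_sub, h0, neg_zero])
  have hd2' : 1 + d ≠ 0 := by rwa [add_comm]
  have hdd : 1 - d ^ 2 ≠ 0 := by
    have : 1 - d ^ 2 = (1 - d) * (1 + d) := by ring
    rw [this]
    exact mul_ne_zero hd1' hd2'
  have h2L : (2 : L) ≠ 0 := by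
    have h3 : algebraMap K L 2 ≠ 0 := by
      rw [Ne, map_eq_zero]; exact h2K
    rwa [map_ofNat] at h3
  have hp1 : φ (1 + d) = H.one + u := by rw [map_add, hone, hd]
  have hm1 : φ (1 - d) = H.one - u := by rw [map_sub, hone, hd]
  have hp1' : φ (d + 1) = u + H.one := by rw [map_add, hone, hd]
  have hm1' : φ (d - 1) = u - H.one := by rw [map_sub, hone, hd]
  have hφ0 : ∀ a : L, a ≠ 0 → φ a ≠ 0 := fun a ha h0 => ha (hinj (by rw [h0, map_zero]))
  -- the translates of `P`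
  have nu : -u ∉ P := fun h0 => hu (by have := P.neg_mem h0; rwa [neg_neg] at this)
  have nuR : -u ∉ R := fun h0 => huR (by have := R.neg_mem h0; rwa [neg_neg] at this)
  have Np : ∀ x, H.U (H.one + u) x ∈ P ↔ H.U u x ∈ P := by
    have h3 := h.N_add' S (θ := H.one) (y := u) hu (by rw [mem_N, H.inv_one, H.U_one]; exact huR)
    intro x
    rw [← mem_N (S := S), h3, mem_N]
  have Nm : ∀ x, H.U (H.one - u) x ∈ P ↔ H.U u x ∈ P := by
    have h3 := h.N_add' S (θ := H.one) (y := -u) nu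
      (by rw [mem_N, H.inv_one, H.U_one]; exact nuR)
    intro x
    rw [sub_eq_add_neg, ← mem_N (S := S), h3, mem_N, H.U_neg]
  -- elements of `P`
  have b1 : φ d⁻¹ ∈ P := by rw [← hi, hd]; exact hui
  have b2 : φ (d⁻¹ * d⁻¹) ∈ P := by
    have e : H.U u (φ (d⁻¹ * d⁻¹)) = H.one := by
      rw [← hd, hU, ← hone]
      congr 1
      field_simp
    by_cases h1 : H.one ∈ P
    · have h3 : R ≤ P := by
        intro x hx
        have h4 := h.le_N S h1 H.one_ne hx
        rwa [mem_N, H.U_one] at h4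
      apply h3
      apply h.N_le S hu
      rw [mem_N, e]
      exact h1
    · have h3 : H.one ∈ R := by
        have h4 := h.inv_mem h1
        rwa [H.inv_one] at h4
      apply h.symm.N_le S huR
      rw [mem_N, e]
      exact h3
  have bpm : ∀ v, v ∉ P → v ∉ R → H.inv (H.one + v) ∈ P := by
    intro v hv hvR
    apply h.inv_mem'
    intro h3
    by_cases h1 : H.one ∈ P
    · have h4 : R ≤ P := by
        intro x hx
        have h4 := h.le_N S h1 H.one_ne hx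
        rwa [mem_N, H.U_one] at h4
      apply hv
      have h5 := P.sub_mem (h4 h3) h1
      rwa [add_sub_cancel_left] at h5
    · have h4 : H.one ∈ R := by
        have h4 := h.inv_mem h1
        rwa [H.inv_one] at h4
      apply hvR
      have h5 := R.sub_mem h3 h4
      rwa [add_sub_cancel_left] at h5
  have bp : φ (1 + d)⁻¹ ∈ P := by
    rw [← hi, hp1]
    exact bpm u hu huR
  have bm : φ (1 - d)⁻¹ ∈ P := by
    rw [← hi, hm1, sub_eq_add_neg]
    exact bpm _ nu nuR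
  have k1 : φ (d ^ 4 * (d ^ 6 + d ^ 7)⁻¹) ∈ P := by
    have e : d ^ 4 * (d ^ 6 + d ^ 7)⁻¹ = d⁻¹ * d⁻¹ - d⁻¹ + (1 + d)⁻¹ := by
      have e2 : d ^ 6 + d ^ 7 = d ^ 6 * (1 + d) := by ring
      rw [e2]
      field_simp
      ring
    rw [e, map_add, map_sub]
    exact P.add_mem (P.sub_mem b2 b1) bp
  have k2 : φ (d ^ 4 * (d ^ 6 - d ^ 7)⁻¹) ∈ P := by
    have e : d ^ 4 * (d ^ 6 - d ^ 7)⁻¹ = d⁻¹ * d⁻¹ + d⁻¹ + (1 - d)⁻¹ := by
      have e2 : d ^ 6 - d ^ 7 = d ^ 6 * (1 - d) := by ring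
      rw [e2]
      field_simp
      ring
    rw [e, map_add, map_add]
    exact P.add_mem (P.add_mem b2 b1) bm
  have k4 : φ (d ^ 4 * (d ^ 4 - d ^ 6)⁻¹) ∈ P := by
    have e : (2 : L) * (d ^ 4 * (d ^ 4 - d ^ 6)⁻¹) = (1 + d)⁻¹ + (1 - d)⁻¹ := by
      have e2 : d ^ 4 - d ^ 6 = d ^ 4 * ((1 - d) * (1 + d)) := by ring
      rw [e2]
      field_simp
      ring
    have h3 : φ ((2 : L) * (d ^ 4 * (d ^ 4 - d ^ 6)⁻¹)) ∈ P := by
      rw [e, map_add]
      exact P.add_mem bp bm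
    have e3 : (2 : L) * (d ^ 4 * (d ^ 4 - d ^ 6)⁻¹) = (2 : K) • (d ^ 4 * (d ^ 4 - d ^ 6)⁻¹) := by
      rw [Algebra.smul_def, map_ofNat]
    rw [e3, map_smul, P.smul_mem_iff h2K] at h3
    exact h3
  -- the four conditions
  have g0' : ∀ a : L, φ (d ^ 4 * a) ∈ P → H.U u (H.U θ (φ a)) ∈ P := by
    intro a ha
    apply g0
    rw [← hd, hU, hU]
    have e : d * d * (d * d * a) = d ^ 4 * a := by ring
    rw [e]
    exact ha
  have n6 : d ^ 6 ≠ 0 := pow_ne_zero _ hd0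
  have n1 : d ^ 6 + d ^ 7 ≠ 0 := by
    have e2 : d ^ 6 + d ^ 7 = d ^ 6 * (1 + d) := by ring
    rw [e2]; exact mul_ne_zero n6 hd2'
  have n2 : d ^ 6 - d ^ 7 ≠ 0 := by
    have e2 : d ^ 6 - d ^ 7 = d ^ 6 * (1 - d) := by ring
    rw [e2]; exact mul_ne_zero n6 hd1'
  have n3 : d ^ 6 - d ^ 8 ≠ 0 := by
    have e2 : d ^ 6 - d ^ 8 = d ^ 6 * (1 - d ^ 2) := by ring
    rw [e2]; exact mul_ne_zero n6 hdd
  have c0 : H.U u (H.U θ (H.inv (φ (d ^ 6)))) ∈ P := by
    rw [hi]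
    apply g0'
    have e : d ^ 4 * (d ^ 6)⁻¹ = d⁻¹ * d⁻¹ := by field_simp
    rw [e]
    exact b2
  have c4 : H.U u (H.U θ (φ ((d ^ 4 - d ^ 6)⁻¹))) ∈ P := g0' _ k4
  have c1 : H.U (H.one - u) (H.U θ (H.inv (φ (d ^ 6 + d ^ 7)))) ∈ P := by
    rw [Nm, hi]
    exact g0' _ k1
  have c2 : H.U (H.one + u) (H.U θ (H.inv (φ (d ^ 6 - d ^ 7)))) ∈ P := by
    rw [Np, hi]
    exact g0' _ k2
  have q1 : H.U (H.one - u) θ ∉ P := by rw [Nm]; exact q0
  have q2 : H.U (H.one + u) θ ∉ P := by rw [Np]; exact q0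
  have hone_u : H.one - u ≠ 0 := by rw [← hm1]; exact hφ0 _ hd1'
  have hone_u' : H.one + u ≠ 0 := by rw [← hp1]; exact hφ0 _ hd2'
  obtain ⟨m0, x3⟩ := h.term_mem hu0 hθ0 (hφ0 _ n6) q0 c0
  obtain ⟨m1, x1⟩ := h.term_mem hone_u hθ0 (hφ0 _ n1) q1 c1
  obtain ⟨m2, x2⟩ := h.term_mem hone_u' hθ0 (hφ0 _ n2) q2 c2
  -- the element `k`
  set x := H.U u (H.U θ (H.inv (θ + φ (d ^ 6)))) with hx
  set k := θ + H.U u θ - x with hk
  have hk0 : θ + H.U u θ ∉ P := by
    by_cases hθ : θ ∈ P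
    · intro h0
      apply q0
      have h3 := P.sub_mem h0 hθ
      rwa [add_sub_cancel_left] at h3
    · intro h0
      apply q0' hθ
      have h3 : H.U (H.inv θ) (θ + H.U u θ) ∈ R := by
        rw [← mem_N (S := S)]
        by_cases h5 : θ + H.U u θ = 0
        · rw [h5]; exact Submodule.zero_mem _
        rw [(h.refl S hθ0).iff _ h5]
        intro h4
        exact h.inv_notMem h0 h5 (h.N_le S hθ h4)
      have h4 : H.U (H.inv θ) θ ∈ R := by
        have e5 := H.U_self (H.inv θ)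
        rw [H.inv_inv] at e5
        rw [e5]
        exact h.inv_mem hθ
      rw [map_add] at h3
      have h5 := R.sub_mem h3 h4
      rwa [add_sub_cancel_left] at h5
  have hkP : k ∉ P := by
    intro h0
    apply hk0
    have h3 := P.add_mem h0 x3
    rwa [hk, sub_add_cancel] at h3
  have hNk : N S P k = N S P (H.U u θ) := by
    have h3 := h.N_add S (c := θ + H.U u θ) (p := -x) hk0 (P.neg_mem x3)
    rw [← sub_eq_add_neg] at h3
    rw [hk, h3]
    by_cases hθ : θ ∈ P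
    · rw [add_comm]
      exact h.N_add S q0 hθ
    · exact h.N_add' S q0 (by rw [mem_N]; exact q0' hθ)
  have c5 : H.U k (H.inv (φ (d ^ 6 - d ^ 8))) ∈ P := by
    change H.inv (φ (d ^ 6 - d ^ 8)) ∈ N S P k
    rw [hNk, mem_N, H.U_U, hi]
    have e : H.U u (φ (d ^ 6 - d ^ 8)⁻¹) = φ ((d ^ 4 - d ^ 6)⁻¹) := by
      rw [← hd, hU]
      congr 1
      have e2 : d ^ 4 - d ^ 6 = d ^ 4 * (1 - d ^ 2) := by ring
      have e3 : d ^ 6 - d ^ 8 = d ^ 6 * (1 - d ^ 2) := by ring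
      rw [e2, e3]
      field_simp
    rw [e]
    exact c4
  obtain ⟨m3, x4⟩ := h.last_mem (hφ0 _ n3) hkP c5
  -- operators
  have o7 : φ (d ^ 7) = H.U u (H.U u (H.U u u)) := by
    rw [← hd, hU, hU, hU]
    congr 1
    ring
  have o6 : φ (d ^ 6) = H.U u (H.U u (H.U u H.one)) := by
    rw [← hd, ← hone, hU, hU, hU]
    congr 1
    ring
  have o3 : ∀ a : L, φ (d ^ 6 * a) = H.U u (H.U u (H.U u (φ a))) := by
    intro a
    rw [← hd, hU, hU, hU]
    congr 1
    ring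
  have hφe : φ (d ^ 6) + φ (d ^ 7) = φ (d ^ 6 + d ^ 7) := (map_add _ _ _).symm
  have hφe' : φ (d ^ 6) - φ (d ^ 7) = φ (d ^ 6 - d ^ 7) := (map_sub _ _ _).symm
  have cm : ∀ (s t : K) (z : A), H.U (u - s • H.one) (H.U (u - t • H.one) z) =
      H.U (u - t • H.one) (H.U (u - s • H.one) z) := by
    intro s t z
    exact HS.Am_comm S hus s t z
  have cm1 : ∀ z, H.U u (H.U (H.one - u) z) = H.U (H.one - u) (H.U u z) := by
    intro z
    have h3 := cm 0 1 z
    rw [zero_smul, sub_zero, one_smul, ← neg_sub H.one u, H.U_neg, H.U_neg] at h3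
    exact h3
  have cm2 : ∀ z, H.U u (H.U (H.one + u) z) = H.U (H.one + u) (H.U u z) := by
    intro z
    have h3 := cm 0 (-1) z
    rw [zero_smul, sub_zero, neg_smul, one_smul, sub_neg_eq_add, add_comm u] at h3
    exact h3
  have cm3 : ∀ z, H.U (H.one - u) (H.U (H.one + u) z) = H.U (H.one + u) (H.U (H.one - u) z) := by
    intro z
    have h3 := cm 1 (-1) z
    rw [neg_smul, one_smul, sub_neg_eq_add, add_comm u, ← neg_sub H.one u, H.U_neg,
      H.U_neg] at h3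
    exact h3
  have oN : ∀ z, H.U (φ (1 - d ^ 2)) z = H.U (H.one + u) (H.U (H.one - u) z) := by
    have hs : ∀ z, z = H.U (H.one - u) (H.U (H.inv (φ (1 - d ^ 2))) (H.U (H.one + u) z)) := by
      intro z
      have e1 : H.one - u + (H.one + u) = (2 : K) • H.one := by rw [two_smul]; abel
      have h3 := H.sum (H.one - u) (H.one + u) z hone_u hone_u' (by
        rw [e1]; exact smul_ne_zero h2K H.one_ne)
      have e2 : H.inv (H.one - u) + H.inv (H.one + u) =
          (2 : K) • H.inv (φ (1 - d ^ 2)) := by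
        rw [← hm1, ← hp1, hi, hi, hi, ← map_add, ← map_smul]
        congr 1
        rw [Algebra.smul_def, map_ofNat]
        have e3 : 1 - d ^ 2 = (1 - d) * (1 + d) := by ring
        rw [e3]
        field_simp
        ring
      rw [e1, e2, S.U_smul_left, S.U_smul_left, H.U_one, S.U_smul] at h3
      have h4 : (2 : K) * 2 ≠ 0 := mul_ne_zero h2K h2K
      exact smul_right_injective A h4 h3
    intro z
    have h3 := hs (H.U (H.inv (H.one + u)) (H.U (φ (1 - d ^ 2)) z))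
    rw [H.U_inv_right _ _ hone_u', H.U_inv_left _ _ (hφ0 _ hdd)] at h3
    rw [← h3, H.U_inv_right _ _ hone_u']
  have key := key_identity S h2K (θ := θ) (u := u) (f0 := φ (d ^ 6)) (e := φ (d ^ 7))
    (g := φ (d ^ 8)) (nw := φ (d ^ 6 - d ^ 8)) (k := k)
    (by
      rw [hi, hU]
      congr 1
      field_simp
      )
    (map_sub _ _ _)
    (by
      intro z
      have h3 : z = H.U (φ (d ^ 6)) (H.U (H.inv (φ (d ^ 6))) z) :=
        (H.U_inv_right _ _ (hφ0 _ n6)).symm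
      rw [o6] at h3
      rw [o7, o6]
      set w := H.U (H.inv (H.U u (H.U u (H.U u H.one)))) z with hw
      rw [H.U_U, H.U_U, H.U_U, H.U_one] at h3
      rw [H.U_U, H.U_U, H.U_U]
      conv_rhs => rw [h3])
    (by
      intro z
      rw [hφe]
      have h3 : z = H.U (φ (d ^ 6 + d ^ 7)) (H.U (H.inv (φ (d ^ 6 + d ^ 7))) z) :=
        (H.U_inv_right _ _ (hφ0 _ n1)).symm
      set w := H.U (H.inv (φ (d ^ 6 + d ^ 7))) z with hw
      have e1 : d ^ 6 + d ^ 7 = d ^ 6 * (1 + d) := by ring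
      have e2 : d ^ 6 - d ^ 8 = d ^ 6 * (1 - d ^ 2) := by ring
      rw [e1, o3, H.U_U, H.U_U, H.U_U, hp1] at h3
      rw [e2, o3, H.U_U, H.U_U, H.U_U, oN, ← cm3, cm1, cm1, cm1, ← h3])
    (by
      intro z
      rw [hφe']
      have h3 : z = H.U (φ (d ^ 6 - d ^ 7)) (H.U (H.inv (φ (d ^ 6 - d ^ 7))) z) :=
        (H.U_inv_right _ _ (hφ0 _ n2)).symm
      set w := H.U (H.inv (φ (d ^ 6 - d ^ 7))) z with hw
      have e1 : d ^ 6 - d ^ 7 = d ^ 6 * (1 - d) := by ring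
      have e2 : d ^ 6 - d ^ 8 = d ^ 6 * (1 - d ^ 2) := by ring
      rw [e1, o3, H.U_U, H.U_U, H.U_U, hm1] at h3
      rw [e2, o3, H.U_U, H.U_U, H.U_U, oN, cm2, cm2, cm2, ← h3])
    (by
      rw [hφe, hφe', hi, hi, hi, ← map_add, ← map_smul]
      congr 1
      rw [Algebra.smul_def, map_ofNat]
      have e1 : d ^ 6 + d ^ 7 = d ^ 6 * (1 + d) := by ring
      have e2 : d ^ 6 - d ^ 7 = d ^ 6 * (1 - d) := by ring
      have e3 : d ^ 6 - d ^ 8 = d ^ 6 * ((1 - d) * (1 + d)) := by ring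
      rw [e1, e2, e3]
      field_simp
      ring)
    (hφ0 _ n6) (by rw [hφe]; exact hφ0 _ n1) (by rw [hφe']; exact hφ0 _ n2) (hφ0 _ n3) m0
    (by rw [hφe]; exact m1) (by rw [hφe']; exact m2) hk m3
  rw [hφe, hφe'] at key
  have e9 : H.U (u + H.one) θ + H.U (u - H.one) θ - (2 : K) • H.U u θ - (2 : K) • θ =
      H.U (H.one - u) (H.U θ (H.inv (θ + φ (d ^ 6 + d ^ 7)))) +
      H.U (H.one + u) (H.U θ (H.inv (θ + φ (d ^ 6 - d ^ 7)))) - (2 : K) • x -
      (2 : K) • H.U k (H.inv (k + φ (d ^ 6 - d ^ 8))) := by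
    have e10 : H.U (u + H.one) θ + H.U (u - H.one) θ =
        H.U (H.one + u) θ + H.U (H.one - u) θ := by
      rw [add_comm u, ← neg_sub H.one u, H.U_neg]
    rw [e10, key, hk]
    simp only [smul_sub, smul_add]
    abel
  rw [e9]
  exact P.sub_mem (P.sub_mem (P.add_mem x1 x2) (P.smul_mem _ x3)) (P.smul_mem _ x4)

end Pool.Agent.HuaPP39
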