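import Mathlib
import Pool.Agent.HuaPP39.KeyP
import Pool.Agent.HuaDom91.Iso

/-!
Perfect pairs: the parallelogram defect at one point, for elements far away.
-/

set_option autoImplicit false

namespace Pool.Agent.HuaPP39

open Pool.Agent.HuaTop84 Pool.Agent.HuaVal Pool.Agent.HuaOne84 Pool.Agent.HuaDom91

variable {A : Type} [AddCommGroup A] {K : Type} [Field K] [Module K A] {H : HS A}

section

variable {P R : Submodule K A} (h : Perf H P R)

include h

omit h in
theorem ne_of_notMem {c : A} (hc : c ∉ P) : c ≠ 0 := fun h0 => hc (h0 ▸ P.zero_mem)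

/-- `c ∉ P` implies `P ⊆ U_c R`. -/
theorem le_s (S : H.Scal K) {c : A} (hc : c ∉ P) : P ≤ N S R (H.inv c) := by
  have hc0 := ne_of_notMem hc
  intro x hx
  by_cases hx0 : x = 0
  · rw [hx0]; exact Submodule.zero_mem _
  rw [(h.refl S hc0).iff x hx0]
  intro h1
  exact h.inv_notMem hx hx0 (h.N_le S hc h1)

/-- `c ∈ U_c R` for `c ∉ P`. -/
theorem mem_s (S : H.Scal K) {c : A} (hc : c ∉ P) : c ∈ N S R (H.inv c) := by
  rw [mem_N]
  have h1 := H.U_self (H.inv c)
  rw [H.inv_inv] at h1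
  rw [h1]
  exact h.inv_mem hc

/-- `U_c R ⊆ P` for `c ∈ P`, `c ≠ 0`. -/
theorem s_le (S : H.Scal K) {c : A} (hc : c ∈ P) (hc0 : c ≠ 0) : N S R (H.inv c) ≤ P := by
  intro x hx
  rw [mem_N] at hx
  have h1 := h.le_N S hc hc0 hx
  rwa [mem_N, H.U_inv_right c _ hc0] at h1

/-- `U_b R ⊆ U_c R` for `b ∉ P`, `c ∉ U_b R`. -/
theorem s_le_s (S : H.Scal K) {b c : A} (hb : b ∉ P) (hcb : c ∉ N S R (H.inv b)) :
    N S R (H.inv b) ≤ N S R (H.inv c) := by
  have hb0 := ne_of_notMem hb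
  have hcP : c ∉ P := fun h0 => hcb (le_s h S hb h0)
  have hc0 := ne_of_notMem hcP
  have hq := h.refl S hb0
  have hp := h.refl S hc0
  have h1 : N S P c ≤ N S P b := fun x hx => hq.N_le S hcb (le_s h S hb hx)
  intro y hy
  by_cases hy0 : y = 0
  · rw [hy0]; exact Submodule.zero_mem _
  rw [hp.iff y hy0]
  intro h2
  exact hq.inv_notMem hy hy0 (h1 h2)

/-- `U_a w ∉ P` if `a` is far away. -/
theorem U_notMem_of_far (S : H.Scal K) {a w : A} (hw : w ≠ 0) (ha : a ∉ P)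
    (hc : H.inv w ∉ P → a ∉ N S R w) : H.U a w ∉ P := by
  intro h1
  have hwR : w ∈ R := h.N_le S ha h1
  have hwP : H.inv w ∉ P := h.symm.inv_notMem hwR hw
  have h2 := hc hwP
  have hiw : H.inv w ≠ 0 := H.inv_ne w hw
  have hq := h.refl S hiw
  rw [H.inv_inv] at hq
  have h3 : P ≤ N S R w := by
    have h4 := le_s h S hwP
    rwa [H.inv_inv] at h4
  have h4 : w ∈ N S P (H.inv w) := hq.N_le S h2 (h3 h1)
  have h5 := H.U_self (H.inv w)
  rw [H.inv_inv] at h5
  rw [mem_N, h5] at h4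
  exact hwP h4

/-- `U_b a⁻¹ ∈ P` if `a` is far away. -/
theorem s_mem_of_far (S : H.Scal K) {a b : A} (hb : b ≠ 0) (ha : a ∉ P)
    (hc : b ∉ P → a ∉ N S R (H.inv b)) : H.U b (H.inv a) ∈ P := by
  by_cases hbP : b ∈ P
  · exact h.le_N S hbP hb (h.inv_mem ha)
  · have h1 := h.inv_mem' (fun h2 => hc hbP (mem_N.2 h2))
    rwa [H.inv_U _ _ (H.inv_ne b hb), H.inv_inv] at h1

/-- The parallelogram defect lies in `P`, general form. -/
theorem key_gen (S : H.Scal K) (h2K : (2 : K) ≠ 0) {a b w : A} (hb : b ≠ 0) (hw : w ≠ 0)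
    (hF : InField K (iso H b hb) a) (ha : a ∉ P) (f1 : b ∉ P → a ∉ N S R (H.inv b))
    (f2 : H.inv w ∉ P → a ∉ N S R w) (f3 : H.U b w ∉ P → a ∉ N S R (H.inv (H.U b w)))
    (g0 : ∀ x, H.U a (H.U (H.inv b) (H.U a x)) ∈ P →
      H.U a (H.U (H.inv b) (H.U (H.U b w) x)) ∈ P) :
    H.U (a + b) w + H.U (a - b) w - (2 : K) • H.U a w - (2 : K) • H.U b w ∈ P := by
  set θ := H.U b w with hθ
  have hθ0 : θ ≠ 0 := fun h0 => hw (H.U_inj hb h0)
  have S' := iso_scal S hb
  have h' := h.iso S hb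
  have e1 : ∀ x, (iso H b hb).U x θ = H.U x w := by
    intro x
    change H.U x (H.U (H.inv b) θ) = _
    rw [hθ, H.U_inv_left b _ hb]
  have key := key_unit S' h2K h' (θ := θ) (u := a) hF ha
    (by
      change H.U b (H.inv a) ∈ P
      exact s_mem_of_far h S hb ha f1)
    (by
      rw [e1]
      exact U_notMem_of_far h S hw ha f2)
    (by
      intro hθP
      rw [e1, mem_N]
      change H.U (H.inv b) (H.U (H.U b (H.inv θ)) (H.U (H.inv b) (H.U a w))) ∉ R
      rw [H.U_U, H.U_inv_left b _ hb, H.U_inv_right b _ hb, ← mem_N (S := S)]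
      have hp := h.refl S hθ0
      refine U_notMem_of_far hp S hw (f3 hθP) ?_
      intro h1
      have h2 : H.inv w ∉ P := fun h0 => h1 (le_s h S hθP h0)
      intro h3
      apply f2 h2
      have h4 : R ≥ N S P θ := h.N_le S hθP
      rw [mem_N] at h3 ⊢
      exact h4 h3)
    (by
      intro x hx
      change H.U a (H.U (H.inv b) (H.U a (H.U (H.inv b) x))) ∈ P at hx
      exact g0 _ hx)
  rw [e1, e1, e1] at key
  exact key

end

end Pool.Agent.HuaPP39
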