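import Mathlib

/-!
Simultaneous choice in a finite dimensional space over a finite field, by the theorem of Hales and
Jewett.
-/

set_option autoImplicit false

open Combinatorics

namespace Pool.Agent.HuaPP39

/-- Let `b j` be families of linearly independent vectors, of the same large size. If no affine
line with a direction in the span of `b j` is contained in the `j`-th bad set, then some vector
lies in none of the bad sets. -/
theorem simul (K : Type) [Field K] [Finite K] (m : ℕ) :
    ∃ (ι : Type) (_ : Fintype ι), ∀ (A : Type) [AddCommGroup A] [Module K A]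
      (b : Fin m → ι → A) (_ : ∀ j, LinearIndependent K (b j)) (bad : Fin m → Set A),
      (∀ j, ∀ g ∈ Submodule.span K (Set.range fun q : Fin m × ι => b q.1 q.2),
        ∀ c ∈ Submodule.span K (Set.range (b j)), c ≠ 0 → ∃ t : K, g + t • c ∉ bad j) →
      ∃ x ∈ Submodule.span K (Set.range fun q : Fin m × ι => b q.1 q.2), ∀ j, x ∉ bad j := by
  classical
  obtain ⟨ι, fι, hι⟩ := Line.exists_mono_in_high_dimension (Fin m → K) (Fin m)
  refine ⟨ι, fι, fun A _ _ b hb bad h => ?_⟩
  by_contra hcon
  push Not at hcon
  set X := Submodule.span K (Set.range fun q : Fin m × ι => b q.1 q.2) with hX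
  have hbX : ∀ j i, b j i ∈ X := fun j i => Submodule.subset_span ⟨(j, i), rfl⟩
  let f : (ι → Fin m → K) → A := fun v => ∑ i, ∑ j, v i j • b j i
  have hf : ∀ v, f v ∈ X := fun v => X.sum_mem fun i _ => X.sum_mem fun j _ =>
    X.smul_mem _ (hbX j i)
  choose C hC using fun v => hcon (f v) (hf v)
  obtain ⟨l, j, hj⟩ := hι C
  set c : A := ∑ i, (if l.idxFun i = none then (1 : K) else 0) • b j i with hc
  have hcs : c ∈ Submodule.span K (Set.range (b j)) :=
    Submodule.sum_mem _ fun i _ => Submodule.smul_mem _ _ (Submodule.subset_span ⟨i, rfl⟩)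
  have hc0 : c ≠ 0 := by
    intro h0
    obtain ⟨i, hi⟩ := l.proper
    have h1 := Fintype.linearIndependent_iff.1 (hb j) _ h0 i
    rw [if_pos hi] at h1
    exact one_ne_zero h1
  obtain ⟨t, ht⟩ := h j (f (l 0)) (hf _) c hcs hc0
  apply ht
  have h2 := hC (l (Pi.single j t))
  rw [hj] at h2
  have h3 : f (l (Pi.single j t)) = f (l 0) + t • c := by
    rw [hc, Finset.smul_sum, ← Finset.sum_add_distrib]
    apply Finset.sum_congr rfl
    intro i _
    rw [Line.coe_apply, Line.coe_apply]
    by_cases hi : l.idxFun i = none
    · rw [hi, if_pos rfl, one_smul]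
      simp only [Option.getD_none, Pi.zero_apply, zero_smul, Finset.sum_const_zero, zero_add]
      rw [Finset.sum_eq_single j]
      · rw [Pi.single_eq_same]
      · intro k _ hk
        rw [Pi.single_eq_of_ne hk, zero_smul]
      · intro hk
        exact absurd (Finset.mem_univ j) hk
    · obtain ⟨y, hy⟩ := Option.ne_none_iff_exists.1 hi
      rw [if_neg hi, ← hy, zero_smul, smul_zero, add_zero]
      simp only [Option.getD_some]
  rw [← h3]
  exact h2

end Pool.Agent.HuaPP39
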