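import Mathlib
import Pool.Agent.HuaPP39.Gen
import Pool.Agent.HuaPP39.HJ
import Pool.Agent.HuaDom91.Van

/-!
Perfect pairs over a finite field of scalars: the parallelogram law.
-/

set_option autoImplicit false

namespace Pool.Agent.HuaPP39

open Pool.Agent.HuaTop84 Pool.Agent.HuaVal Pool.Agent.HuaOne84 Pool.Agent.HuaDom91

variable {A : Type} [AddCommGroup A] {K : Type} [Field K] [Module K A] {H : HS A}

/-- `U_c⁻¹ P ⊆ U_b⁻¹ P` for `b ∉ P`, `c ∉ U_b R`. -/
theorem N_le_N {P R : Submodule K A} (h : Perf H P R) (S : H.Scal K) {b c : A} (hb : b ∉ P)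
    (hcb : c ∉ N S R (H.inv b)) : N S P c ≤ N S P b :=
  fun _ hx => (h.refl S (ne_of_notMem hb)).N_le S hcb (le_s h S hb hx)

/-- Inversion reverses the order. -/
theorem scale (S : H.Scal K) {L : Submodule K A} {y x : A} (hx : x ≠ 0)
    (hyx : N S L y ≤ N S L (H.inv x)) : N S L (H.U y x) ≤ N S L y := by
  intro z hz
  rw [mem_N, H.U_U] at hz
  have h1 : H.U x (H.U y z) ∈ N S L y := hz
  have h2 := hyx h1
  rwa [mem_N, H.U_inv_left x _ hx] at h2

/-- Two proper subspaces do not cover. -/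
theorem exists_notMem_two {B B' : Submodule K A} (h : B ≠ ⊤) (h' : B' ≠ ⊤) :
    ∃ z, z ∉ B ∧ z ∉ B' := by
  obtain ⟨x, hx⟩ : ∃ x, x ∉ B := by
    by_contra hcon
    push Not at hcon
    exact h (eq_top_iff.2 fun x _ => hcon x)
  obtain ⟨y, hy⟩ : ∃ y, y ∉ B' := by
    by_contra hcon
    push Not at hcon
    exact h' (eq_top_iff.2 fun x _ => hcon x)
  by_cases hx' : x ∈ B'
  · by_cases hy' : y ∈ B
    · refine ⟨x + y, fun h0 => hx ?_, fun h0 => hy ?_⟩
      · have := B.sub_mem h0 hy'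
        rwa [add_sub_cancel_right] at this
      · have := B'.sub_mem h0 hx'
        rwa [add_sub_cancel_left] at this
    · exact ⟨y, hy', hy⟩
  · exact ⟨x, hx, hx'⟩

/-- Large balls. -/
theorem big {P R : Submodule K A} (h : Perf H P R) (S : H.Scal K) (G : Finset A) :
    ∃ B : Submodule K A, B ≠ ⊤ ∧ P ≤ B ∧ (∀ g ∈ G, g ∈ B) ∧
      (∀ g ∈ G, g ∉ P → N S R (H.inv g) ≤ B) ∧ ∀ z, z ∉ B → B ≤ N S R (H.inv z) := by
  classical
  induction G using Finset.induction_on with
  | empty =>
    exact ⟨P, h.ne_top, le_rfl, by simp, by simp, fun z hz => le_s h S hz⟩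
  | insert g G hg ih =>
    obtain ⟨B, h1, h2, h3, h4, h5⟩ := ih
    by_cases hgP : g ∈ P
    · refine ⟨B, h1, h2, fun x hx => ?_, fun x hx hxP => ?_, h5⟩
      · rcases Finset.mem_insert.1 hx with rfl | hx
        · exact h2 hgP
        · exact h3 x hx
      · rcases Finset.mem_insert.1 hx with rfl | hx
        · exact absurd hgP hxP
        · exact h4 x hx hxP
    · obtain ⟨z, hz1, hz2⟩ := exists_notMem_two h1 (h.refl S (ne_of_notMem hgP)).ne_top
      have hzP : z ∉ P := fun h0 => hz1 (h2 h0)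
      have hB := h5 z hz1
      have hg' := s_le_s h S hgP hz2
      refine ⟨N S R (H.inv z), (h.refl S (ne_of_notMem hzP)).ne_top, h2.trans hB,
        fun x hx => ?_, fun x hx hxP => ?_, fun y hy => s_le_s h S hzP hy⟩
      · rcases Finset.mem_insert.1 hx with rfl | hx
        · exact hg' (mem_s h S hgP)
        · exact hB (h3 x hx)
      · rcases Finset.mem_insert.1 hx with rfl | hx
        · exact hg'
        · exact (h4 x hx hxP).trans hB

/-- A Hua system with a perfect pair is infinite. -/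
theorem infinite_of_perf {P R : Submodule K A} (h : Perf H P R) (S : H.Scal K) : Infinite A := by
  by_contra hcon
  rw [not_infinite_iff_finite] at hcon
  have : Finite (Set A) := inferInstance
  have : Finite (Submodule K A) := Finite.of_injective (fun V : Submodule K A => (V : Set A))
    SetLike.coe_injective
  obtain ⟨V, hV⟩ := (Set.toFinite {V : Submodule K A | ∃ W, Perf H V W}).exists_maximal ⟨P, R, h⟩
  obtain ⟨W, hW⟩ := hV.prop
  obtain ⟨c, hc⟩ : ∃ x, x ∉ V := by
    by_contra hcon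
    push Not at hcon
    exact hW.ne_top (eq_top_iff.2 fun x _ => hcon x)
  have h1 := hV.le_of_ge (y := N S W (H.inv c)) ⟨_, hW.refl S (ne_of_notMem hc)⟩ (le_s hW S hc)
  exact hc (h1 (mem_s hW S hc))

/-- Linearly independent families of any finite size. -/
theorem exists_indep [Finite K] [Infinite A] (ι : Type) [Fintype ι] :
    ∃ d : ι → A, LinearIndependent K d := by
  have h1 : Cardinal.aleph0 ≤ Module.rank K A := by
    by_contra hlt
    rw [not_le, Module.rank_lt_aleph0_iff] at hlt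
    have := Module.finite_of_finite K (M := A)
    exact not_finite A
  have h2 : ((Fintype.card ι : ℕ) : Cardinal) ≤ Module.rank K A :=
    (Cardinal.natCast_lt_aleph0).le.trans h1
  obtain ⟨s, hs, hli⟩ := le_rank_iff_exists_linearIndependent_finset.1 h2
  have e : ι ≃ s := Fintype.equivOfCardEq (by rw [Fintype.card_coe, hs])
  exact ⟨fun i => (e i : A), hli.comp e e.injective⟩

theorem inj3 (h2K : (2 : K) ≠ 0) : Function.Injective (![0, 1, -1] : Fin 3 → K) := by
  have n1 : (0 : K) ≠ 1 := zero_ne_one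
  have n2 : (0 : K) ≠ -1 := by
    intro h0
    apply one_ne_zero (α := K)
    rw [← neg_neg (1 : K), ← h0, neg_zero]
  have n3 : (1 : K) ≠ -1 := by
    intro h0
    apply h2K
    have h1 : (1 : K) + 1 = 0 := by
      nth_rw 2 [h0]
      exact add_neg_cancel 1
    rw [← h1]
    exact one_add_one_eq_two.symm
  intro a b hab
  fin_cases a <;> fin_cases b
  · rfl
  · exact absurd hab n1
  · exact absurd hab n2
  · exact absurd hab.symm n1
  · rfl
  · exact absurd hab n3
  · exact absurd hab.symm n2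
  · exact absurd hab.symm n3
  · rfl

section Main

variable [Finite K]

/-- Finitely many defects lie in `P` for a common `u`, for nonzero `e j`. -/
theorem common_ne (S : H.Scal K) (h2K : (2 : K) ≠ 0)
    (hF : ∀ (b : A) (hb : b ≠ 0) (a : A), InField K (iso H b hb) a)
    (F4 : ∀ L T : Submodule K A, Perf H L T → ∀ c g : A, c ∉ L → ∀ t : Fin 3 → K,
      Function.Injective t → (∀ i, g + t i • c ∉ L) → ∃ i, N S L (g + t i • c) ≤ N S L c)
    (F7 : ∀ F : Finset A, ∃ Φ : Finset A, ∀ L T : Submodule K A, Perf H L T →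
      (∀ x ∈ Submodule.span K (Φ : Set A), x ∈ L → x = 0) →
      ∃ y ∈ Φ, y ≠ 0 ∧ ∀ c ∈ F, c ≠ 0 → N S L y ≤ N S L c)
    {P R : Submodule K A} (h : Perf H P R) {v : A} (hv0 : v ≠ 0) {m : ℕ} (e c : Fin m → A)
    (he : ∀ j, e j ≠ 0) : ∃ u, ∀ j, dfc H (u + c j) (e j) v ∈ P := by
  classical
  have hinf := infinite_of_perf h S
  obtain ⟨ι, _, hι⟩ := simul K m
  obtain ⟨d, hd⟩ := exists_indep (K := K) (A := A) ι
  set D := Submodule.span K (Set.range d) with hD
  have fD : Finite D := by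
    have : Module.Finite K D := Module.Finite.span_of_finite K (Set.finite_range d)
    exact Module.finite_of_finite K
  have fD' : (D : Set A).Finite := Set.toFinite _
  -- the finite sets which are to be dominated
  set F : Fin m → Finset A := fun j => fD'.toFinset.image H.inv ∪ {H.U (e j) v} with hFd
  choose Φ hΦ using fun j => F7 (F j)
  -- the space `X`
  set XS : Set A := Set.range c ∪ Set.range e ∪ (⋃ j, (Φ j : Set A)) ∪
    (⋃ j, ⋃ y ∈ Φ j, Set.range fun i => H.U y (d i)) with hXS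
  have hXSf : XS.Finite := by
    refine ((((Set.finite_range c).union (Set.finite_range e)).union
      (Set.finite_iUnion fun j => (Φ j).finite_toSet)).union ?_)
    exact Set.finite_iUnion fun j => Set.Finite.biUnion (Φ j).finite_toSet
      fun y _ => Set.finite_range _
  set X := Submodule.span K XS with hX
  have hXc : ∀ j, c j ∈ X := fun j => Submodule.subset_span (Or.inl (Or.inl (Or.inl ⟨j, rfl⟩)))
  have hXe : ∀ j, e j ∈ X := fun j => Submodule.subset_span (Or.inl (Or.inl (Or.inr ⟨j, rfl⟩)))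
  have hXΦ : ∀ j, ∀ y ∈ Φ j, y ∈ X := fun j y hy =>
    Submodule.subset_span (Or.inl (Or.inr (Set.mem_iUnion.2 ⟨j, hy⟩)))
  have hXd : ∀ j, ∀ y ∈ Φ j, ∀ i, H.U y (d i) ∈ X := fun j y hy i =>
    Submodule.subset_span (Or.inr (Set.mem_iUnion.2 ⟨j, Set.mem_iUnion₂.2 ⟨y, hy, i, rfl⟩⟩))
  have hXD : ∀ j, ∀ y ∈ Φ j, ∀ x ∈ D, H.U y x ∈ X := by
    intro j y hy x hx
    have h1 : D ≤ X.comap (lin S y) := by
      rw [hD, Submodule.span_le]
      rintro _ ⟨i, rfl⟩
      exact hXd j y hy i
    exact h1 hx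
  have fX : Finite X := by
    have : Module.Finite K X := Module.Finite.span_of_finite K hXSf
    exact Module.finite_of_finite K
  have fX' : (X : Set A).Finite := Set.toFinite _
  -- the large ball
  obtain ⟨B, B1, B2, B3, B4, B5⟩ := big h S (fX'.toFinset ∪ {H.inv v} ∪
    Finset.univ.image (fun j => H.U (e j) v) ∪
    Finset.univ.biUnion fun j => fX'.toFinset.image fun u => H.U (e j) (H.inv u))
  have gX : ∀ x ∈ X, x ∈ fX'.toFinset ∪ {H.inv v} ∪
      Finset.univ.image (fun j => H.U (e j) v) ∪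
      Finset.univ.biUnion fun j => fX'.toFinset.image fun u => H.U (e j) (H.inv u) := by
    intro x hx
    exact Finset.mem_union_left _ (Finset.mem_union_left _ (Finset.mem_union_left _
      (fX'.mem_toFinset.2 hx)))
  have gv : H.inv v ∈ fX'.toFinset ∪ {H.inv v} ∪
      Finset.univ.image (fun j => H.U (e j) v) ∪
      Finset.univ.biUnion fun j => fX'.toFinset.image fun u => H.U (e j) (H.inv u) :=
    Finset.mem_union_left _ (Finset.mem_union_left _ (Finset.mem_union_right _
      (Finset.mem_singleton_self _)))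
  have gη : ∀ j, H.U (e j) v ∈ fX'.toFinset ∪ {H.inv v} ∪
      Finset.univ.image (fun j => H.U (e j) v) ∪
      Finset.univ.biUnion fun j => fX'.toFinset.image fun u => H.U (e j) (H.inv u) := fun j =>
    Finset.mem_union_left _ (Finset.mem_union_right _
      (Finset.mem_image.2 ⟨j, Finset.mem_univ j, rfl⟩))
  have gs : ∀ j, ∀ x ∈ X, H.U (e j) (H.inv x) ∈ fX'.toFinset ∪ {H.inv v} ∪
      Finset.univ.image (fun j => H.U (e j) v) ∪
      Finset.univ.biUnion fun j => fX'.toFinset.image fun u => H.U (e j) (H.inv u) :=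
    fun j x hx => Finset.mem_union_right _ (Finset.mem_biUnion.2 ⟨j, Finset.mem_univ j,
      Finset.mem_image.2 ⟨x, fX'.mem_toFinset.2 hx, rfl⟩⟩)
  obtain ⟨z, hzB⟩ : ∃ z, z ∉ B := by
    by_contra hcon
    push Not at hcon
    exact B1 (eq_top_iff.2 fun x _ => hcon x)
  have hXB : ∀ x ∈ X, x ∈ B := fun x hx => B3 x (gX x hx)
  have hzP : z ∉ P := fun h0 => hzB (B2 h0)
  have hz0 : z ≠ 0 := ne_of_notMem hzP
  have hBz := B5 z hzB
  have hzX : ∀ x ∈ X, z + x ∉ B := fun x hx h0 => hzB (by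
    have := B.sub_mem h0 (hXB x hx)
    rwa [add_sub_cancel_right] at this)
  have hNz : ∀ x ∈ X, N S P (z + x) = N S P z := by
    intro x hx
    by_cases hxP : x ∈ P
    · exact h.N_add S hzP hxP
    · rw [add_comm]
      exact h.N_add' S hzP fun h0 => hzB (B4 x (gX x hx) hxP h0)
  have hQ := h.refl S hz0
  -- the discs `L j`
  set L : Fin m → Submodule K A := fun j => N S (N S P z) (H.inv (e j)) with hL
  have hLp : ∀ j, Perf H (L j) (N S (N S R (H.inv z)) (e j)) := fun j => hQ.refl S (he j)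
  have hLP : ∀ j, L j ≤ P := by
    intro j x hx
    have h1 : H.U (H.inv (e j)) x ∈ N S P z := hx
    by_cases hj : e j ∈ P
    · have h2 := h.le_N S hj (he j) (h.N_le S hzP h1)
      rwa [mem_N, H.U_inv_right (e j) _ (he j)] at h2
    · have h2 := N_le_N h S hj (fun h0 => hzB (B4 _ (gX _ (hXe j)) hj h0)) h1
      rwa [mem_N, H.U_inv_right (e j) _ (he j)] at h2
  have hLX : ∀ j, ∀ x ∈ X, x ∈ L j → x = 0 := by
    intro j x hx hxL
    by_contra hx0
    have h1 : H.U (e j) (H.inv x) ∈ N S R (H.inv z) := hBz (B3 _ (gs j x hx))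
    have h2 : H.U (e j) (H.inv x) ≠ 0 := fun h0 => H.inv_ne x hx0 (H.U_inj (he j) h0)
    apply hQ.inv_notMem h1 h2
    rw [H.inv_U _ _ (he j), H.inv_inv]
    exact hxL
  choose y hyΦ hy0 hy using fun j => hΦ j (L j) _ (hLp j) (fun x hx hxL =>
    hLX j x (Submodule.span_le.2 (fun w hw => hXΦ j w hw) hx) hxL)
  -- the families
  obtain ⟨ξ, hξ, hgood⟩ := hι A (fun j i => H.U (y j) (d i))
    (fun j => hd.map' (lin S (y j)) (LinearMap.ker_eq_bot.2 fun a b hab => H.U_inj' (hy0 j) hab))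
    (fun j => {ξ | ¬ N S (L j) (z + c j + ξ) ≤ N S (L j) (H.U (e j) v)}) (by
      intro j g hg c' hc' hc0
      have hgX : g ∈ X := by
        have h1 : Submodule.span K (Set.range fun q : Fin m × ι => H.U (y q.1) (d q.2)) ≤ X := by
          rw [Submodule.span_le]
          rintro _ ⟨q, rfl⟩
          exact hXd q.1 _ (hyΦ q.1) q.2
        exact h1 hg
      obtain ⟨x, hxD, rfl⟩ : ∃ x ∈ D, H.U (y j) x = c' := by
        have h1 : Submodule.span K (Set.range fun i => H.U (y j) (d i)) = D.map (lin S (y j)) := by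
          rw [hD, Submodule.map_span, ← Set.range_comp]
          rfl
        rw [h1] at hc'
        exact hc'
      have hx0 : x ≠ 0 := by
        rintro rfl
        exact hc0 (map_zero _)
      have hcX : H.U (y j) x ∈ X := hXD j _ (hyΦ j) x hxD
      have o1 : N S (L j) (H.U (y j) x) ≤ N S (L j) (y j) := by
        apply scale S hx0
        apply hy j
        · exact Finset.mem_union_left _ (Finset.mem_image.2 ⟨x, fD'.mem_toFinset.2 hxD, rfl⟩)
        · exact H.inv_ne x hx0
      have o2 : N S (L j) (y j) ≤ N S (L j) (H.U (e j) v) := by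
        apply hy j
        · exact Finset.mem_union_right _ (Finset.mem_singleton_self _)
        · exact fun h0 => hv0 (H.U_inj (he j) h0)
      obtain ⟨i, hi⟩ := F4 (L j) _ (hLp j) (H.U (y j) x) (z + c j + g)
        (fun h0 => hc0 (hLX j _ hcX h0)) ![0, 1, -1]
        (inj3 h2K)
        (fun i h0 => by
          have h1 : z + c j + g + (![0, 1, -1] : Fin 3 → K) i • H.U (y j) x =
              z + (c j + g + (![0, 1, -1] : Fin 3 → K) i • H.U (y j) x) := by abel
          rw [h1] at h0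
          exact hzX _ (X.add_mem (X.add_mem (hXc j) hgX) (X.smul_mem _ hcX)) (B2 (hLP j h0)))
      refine ⟨(![0, 1, -1] : Fin 3 → K) i, fun hbad => hbad ?_⟩
      rw [← add_assoc]
      exact hi.trans (o1.trans o2))
  have hξX : ξ ∈ X := by
    have h1 : Submodule.span K (Set.range fun q : Fin m × ι => H.U (y q.1) (d q.2)) ≤ X := by
      rw [Submodule.span_le]
      rintro _ ⟨q, rfl⟩
      exact hXd q.1 _ (hyΦ q.1) q.2
    exact h1 hξ
  refine ⟨z + ξ, fun j => ?_⟩
  have hg : N S (L j) (z + c j + ξ) ≤ N S (L j) (H.U (e j) v) := not_not.1 (hgood j)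
  have ea : z + ξ + c j = z + (c j + ξ) := by abel
  have ea' : z + c j + ξ = z + (c j + ξ) := by abel
  have hcξ : c j + ξ ∈ X := X.add_mem (hXc j) hξX
  rw [ea]
  rw [ea'] at hg
  have haB := hzX _ hcξ
  have hNa := hNz _ hcξ
  set a := z + (c j + ξ) with hadef
  have key := key_gen h S h2K (he j) hv0 (hF _ (he j) a) (fun h0 => haB (B2 h0))
    (fun h1 h0 => haB (B4 _ (gX _ (hXe j)) h1 h0))
    (fun h1 h0 => haB (B4 _ gv h1 (by rw [H.inv_inv]; exact h0)))
    (fun h1 h0 => haB (B4 _ (gη j) h1 h0))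
    (by
      intro x hx
      rw [← mem_N (S := S), hNa] at hx ⊢
      exact hg hx)
  unfold dfc
  rw [two_smul, two_smul] at key
  exact key

/-- Finitely many defects lie in `P` for a common `u`. -/
theorem common (S : H.Scal K) (h2K : (2 : K) ≠ 0)
    (hF : ∀ (b : A) (hb : b ≠ 0) (a : A), InField K (iso H b hb) a)
    (F4 : ∀ L T : Submodule K A, Perf H L T → ∀ c g : A, c ∉ L → ∀ t : Fin 3 → K,
      Function.Injective t → (∀ i, g + t i • c ∉ L) → ∃ i, N S L (g + t i • c) ≤ N S L c)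
    (F7 : ∀ F : Finset A, ∃ Φ : Finset A, ∀ L T : Submodule K A, Perf H L T →
      (∀ x ∈ Submodule.span K (Φ : Set A), x ∈ L → x = 0) →
      ∃ y ∈ Φ, y ≠ 0 ∧ ∀ c ∈ F, c ≠ 0 → N S L y ≤ N S L c)
    {P R : Submodule K A} (h : Perf H P R) {v : A} (hv0 : v ≠ 0) {m : ℕ} (e c : Fin m → A) :
    ∃ u, ∀ j, dfc H (u + c j) (e j) v ∈ P := by
  classical
  obtain ⟨u, hu⟩ := common_ne S h2K hF F4 F7 h hv0 (fun j => if e j = 0 then H.one else e j) c
    (fun j => by
      by_cases hj : e j = 0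
      · rw [if_pos hj]; exact H.one_ne
      · rw [if_neg hj]; exact hj)
  refine ⟨u, fun j => ?_⟩
  by_cases hj : e j = 0
  · rw [hj]
    unfold dfc
    rw [H.U_zero, add_zero, sub_zero]
    simp
  · have h1 := hu j
    rw [if_neg hj] at h1
    exact h1

/-- The parallelogram defects lie in `P`. -/
theorem dfc_mem (S : H.Scal K) (h2K : (2 : K) ≠ 0)
    (hF : ∀ (b : A) (hb : b ≠ 0) (a : A), InField K (iso H b hb) a)
    (F4 : ∀ L T : Submodule K A, Perf H L T → ∀ c g : A, c ∉ L → ∀ t : Fin 3 → K,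
      Function.Injective t → (∀ i, g + t i • c ∉ L) → ∃ i, N S L (g + t i • c) ≤ N S L c)
    (F7 : ∀ F : Finset A, ∃ Φ : Finset A, ∀ L T : Submodule K A, Perf H L T →
      (∀ x ∈ Submodule.span K (Φ : Set A), x ∈ L → x = 0) →
      ∃ y ∈ Φ, y ≠ 0 ∧ ∀ c ∈ F, c ≠ 0 → N S L y ≤ N S L c)
    {P R : Submodule K A} (h : Perf H P R) (x b v : A) : dfc H x b v ∈ P := by
  by_cases hv0 : v = 0
  · rw [hv0]
    unfold dfc
    simp
  obtain ⟨u, hu⟩ := common S h2K hF F4 F7 h hv0 ![b, x + b, x - b, x, x] ![0, 0, 0, b, -b]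
  have h0 : dfc H u b v ∈ P := by simpa using hu 0
  have h1 : dfc H u (x + b) v ∈ P := by simpa using hu 1
  have h2 : dfc H u (x - b) v ∈ P := by simpa using hu 2
  have h3 : dfc H (u + b) x v ∈ P := hu 3
  have h4 : dfc H (u - b) x v ∈ P := by
    rw [sub_eq_add_neg]
    exact hu 4
  have h5 : (2 : K) • dfc H x b v ∈ P := by
    rw [two_smul, dfc_two H u]
    exact P.add_mem (P.add_mem (P.sub_mem (P.sub_mem (P.add_mem h0 h0) h1) h2) h3) h4
  exact (P.smul_mem_iff h2K).1 h5

/-- The parallelogram law. -/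
theorem dfc_eq_zero (S : H.Scal K) (h2K : (2 : K) ≠ 0)
    (hF : ∀ (b : A) (hb : b ≠ 0) (a : A), InField K (iso H b hb) a)
    (F4 : ∀ L T : Submodule K A, Perf H L T → ∀ c g : A, c ∉ L → ∀ t : Fin 3 → K,
      Function.Injective t → (∀ i, g + t i • c ∉ L) → ∃ i, N S L (g + t i • c) ≤ N S L c)
    (F7 : ∀ F : Finset A, ∃ Φ : Finset A, ∀ L T : Submodule K A, Perf H L T →
      (∀ x ∈ Submodule.span K (Φ : Set A), x ∈ L → x = 0) →
      ∃ y ∈ Φ, y ≠ 0 ∧ ∀ c ∈ F, c ≠ 0 → N S L y ≤ N S L c)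
    {P R : Submodule K A} (h : Perf H P R) (x b v : A) : dfc H x b v = 0 := by
  set y := dfc H x b v with hy
  by_contra hy0
  have h1 : ∀ c, H.U c y ∈ P := by
    intro c
    by_cases hc : c = 0
    · rw [hc, H.U_zero]
      exact P.zero_mem
    exact dfc_mem S h2K hF F4 F7 (h.refl S hc).symm x b v
  have hiy : H.inv y ≠ 0 := H.inv_ne y hy0
  have h2 : ∀ u, u + u + H.inv y ∈ P := by
    intro u
    have h3 := U_shift H u hiy
    rw [H.inv_inv] at h3
    have h4 := P.sub_mem (h1 (u + H.inv y)) (h1 u)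
    rw [h3, add_sub_cancel_left] at h4
    exact h4
  apply h.ne_top
  rw [eq_top_iff]
  intro u _
  have h5 := P.sub_mem (h2 u) (h2 0)
  rw [zero_add, zero_add, add_sub_cancel_right, ← two_smul K u, P.smul_mem_iff h2K] at h5
  exact h5

end Main

end Pool.Agent.HuaPP39
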