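import Mathlib
import Pool.Agent.HuaPP39.Asm
import Pool.Agent.HuaPerf95.Directed
import Pool.Agent.HuaTwoP96.Prime
import Pool.Agent.HuaKey73.Final

/-!
Hua systems of odd exponent `p` with a perfect pair, or with a closed pair, are quadratic.
-/

set_option autoImplicit false

open Filter

namespace Pool.Agent.HuaPP39

open Pool.Agent.HuaTop84 Pool.Agent.HuaVal Pool.Agent.HuaOne84 Pool.Agent.HuaDom91
  Pool.Agent.HuaPair25 Pool.Agent.HuaKey73

variable {A : Type} [AddCommGroup A] {J : A → A → A} {p : ℕ} [Fact p.Prime]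

theorem two_ne_zero_p (hp2 : p ≠ 2) : (2 : ZMod p) ≠ 0 := by
  intro h
  have h1 : ((2 : ℕ) : ZMod p) = 0 := by exact_mod_cast h
  rw [ZMod.natCast_eq_zero_iff] at h1
  exact hp2 ((Nat.prime_dvd_prime_iff_eq Fact.out Nat.prime_two).1 h1)

/-- The parallelogram law holds if there is a perfect pair. -/
theorem dfc_eq_zero_p [Module (ZMod p) A] (hp2 : p ≠ 2) {H : HS A}
    {P R : Submodule (ZMod p) A} (h : Perf H P R) (x b v : A) : dfc H x b v = 0 := by
  have S : H.Scal (ZMod p) := Pool.Agent.HuaTwoP96.scal_zmod H p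
  have h2K := two_ne_zero_p hp2
  have hinf := infinite_of_perf h S
  exact dfc_eq_zero S h2K
    (fun b hb a => Pool.Agent.HuaTwoP96.exists_field (iso_scal S hb) a)
    (fun L T hL c g hc t ht hz => Pool.Agent.HuaPerf95.two_points_p hL S h2K hc t ht hz)
    (fun F => Pool.Agent.HuaPerf95.directed hp2 S F) h x b v

/-- **The third difference vanishes if there is a perfect pair**, for odd exponent. -/
theorem T3_zero_odd [Module (ZMod p) A] (hp2 : p ≠ 2) (hJ : JSys J) {e : A} (he : e ≠ 0)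
    {P R : Submodule (ZMod p) A} (h : Perf (toHS hJ e he) P R) :
    ∀ e', e' ≠ 0 → ∀ x y z c, T3 J e' x y z c = 0 := by
  intro e' he' x y z c
  have h2 : ∀ a : A, a + a = 0 → a = 0 := by
    intro a ha
    rw [← two_smul (ZMod p) a] at ha
    exact (smul_eq_zero.mp ha).resolve_left (two_ne_zero_p hp2)
  have hc : ∀ w, Pool.Agent.HuaVal.H J e' w c = Pool.Agent.HuaVal.H J e w (J e (J e' c)) := by
    intro w
    by_cases hw : w = 0
    · rw [hw, H_zero_left, H_zero_left]
    · rw [H_of_ne hw, H_of_ne hw, hJ.inv e _ he]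
  unfold T3
  rw [hc, hc, hc, hc, hc, hc, hc]
  refine third_zero h2 (fun w => Pool.Agent.HuaVal.H J e w (J e (J e' c))) (fun u a => ?_) x y z
  have h3 := dfc_eq_zero_p hp2 h u a (J e (J e' c))
  have h4 := sub_eq_zero.mp h3
  exact eq_add_of_sub_eq' h4

theorem ultra_exp (hA : ∀ a : A, p • a = 0) : ∀ a : UP A, p • a = 0 := by
  intro a
  refine Germ.inductionOn a fun f => ?_
  exact Germ.coe_eq.mpr (Eventually.of_forall fun i => hA (f i))

/-- The third differences vanish if there is a closed pair, the unit outside `P`. -/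
theorem T3_of_pair_odd (hp2 : p ≠ 2) (hA : ∀ a : A, p • a = 0) (hJ : JSys J) {e : A}
    (he : e ≠ 0) {P V : AddSubgroup A} (h : CP (toHS hJ e he) P V)
    (h1 : (toHS hJ e he).one ∉ P) {x : A} (hx : x ∉ V) :
    ∀ e', e' ≠ 0 → ∀ x y z c, T3 J e' x y z c = 0 := by
  intro e' he' a b c d
  let _ : Module (ZMod p) (UP A) := AddCommGroup.zmodModule (ultra_exp hA)
  have hperf : Perf (HU hJ he) (AddSubgroup.toZModSubmodule p (Zg hJ he h h1 hx))
      (AddSubgroup.toZModSubmodule p (rho (HU hJ he) (Zg hJ he h h1 hx))) := by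
    refine ⟨?_, ?_, ?_⟩
    · intro h2
      apply Z_ne_bot hJ he h h1 hx
      rw [eq_bot_iff]
      intro y hy
      have h3 := (AddSubgroup.mem_toZModSubmodule p).2 hy
      rw [h2, Submodule.mem_bot] at h3
      rw [h3]
      exact AddSubgroup.zero_mem _
    · intro h2
      apply Z_one hJ he h h1 hx
      refine (AddSubgroup.mem_toZModSubmodule p).1 ?_
      rw [h2]
      exact Submodule.mem_top
    · intro y hy
      exact Z_perf hJ he h h1 hx hy
  have h2 := T3_zero_odd hp2 hJ.ultra (dg_ne he) hperf (dg e') (dg_ne he') (dg a) (dg b) (dg c)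
    (dg d)
  rw [dg_T3] at h2
  exact dg_inj (h2.trans dg_zero.symm)

/-- The third differences vanish if there is a closed pair of proper subgroups. -/
theorem T3_of_cp_odd (hp2 : p ≠ 2) (hA : ∀ a : A, p • a = 0) (hJ : JSys J) {e : A}
    (he : e ≠ 0) {P R : AddSubgroup A} (h : CP (toHS hJ e he) P R) (hP : P ≠ ⊤) (hR : R ≠ ⊤) :
    ∀ e', e' ≠ 0 → ∀ x y z c, T3 J e' x y z c = 0 := by
  have hex : ∀ V : AddSubgroup A, V ≠ ⊤ → ∃ a, a ∉ V := by
    intro V hV
    by_contra hno
    apply hV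
    rw [eq_top_iff]
    intro y _
    by_contra hy
    exact hno ⟨y, hy⟩
  obtain ⟨a, ha⟩ := hex P hP
  obtain ⟨x, hx⟩ := hex R hR
  have ha0 : a ≠ 0 := CP.ne_zero ha
  have hcp' := h.iso ha0
  have hx' : (toHS hJ e he).U a x ∉ R.comap ((toHS hJ e he).U ((toHS hJ e he).inv a)) := by
    intro h1
    apply hx
    change (toHS hJ e he).U ((toHS hJ e he).inv a) ((toHS hJ e he).U a x) ∈ R at h1
    rwa [(toHS hJ e he).U_inv_left a _ ha0] at h1
  exact T3_of_pair_odd hp2 hA hJ ha0 hcp' ha hx'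

/-- The same for a closed pair of proper subgroups of the ultrapower. -/
theorem T3_of_cp_ultra_odd (hp2 : p ≠ 2) (hA : ∀ a : A, p • a = 0) (hJ : JSys J) {e : A}
    (he : e ≠ 0) {P R : AddSubgroup (UP A)} (h : CP (HU hJ he) P R) (hP : P ≠ ⊤) (hR : R ≠ ⊤) :
    ∀ e', e' ≠ 0 → ∀ x y z c, T3 J e' x y z c = 0 := by
  intro e' he' a b c d
  have h2 := T3_of_cp_odd hp2 (ultra_exp hA) hJ.ultra (dg_ne he) h hP hR (dg e') (dg_ne he')
    (dg a) (dg b) (dg c) (dg d)
  rw [dg_T3] at h2
  exact dg_inj (h2.trans dg_zero.symm)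

end Pool.Agent.HuaPP39
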